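import Mathlib

/-!
# A Balog–Szemerédi–Gowers theorem for finite sets of complex numbers
-/

set_option autoImplicit false

namespace Pool.Agent.SDD.BG

open Finset
open scoped Pointwise

/-- `A ∩ (A + s)` -/
noncomputable def sl (A : Finset ℂ) (s : ℂ) : Finset ℂ := A.filter fun a => a - s ∈ A

/-- number of representations of `s` as a difference -/
noncomputable def rr (A : Finset ℂ) (s : ℂ) : ℕ := (sl A s).card

theorem mem_sl {A : Finset ℂ} {s a : ℂ} : a ∈ sl A s ↔ a ∈ A ∧ a - s ∈ A := mem_filter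

theorem rr_neg (A : Finset ℂ) (s : ℂ) : rr A (-s) = rr A s := by
  unfold rr
  apply card_bij (fun a _ => a + s)
  · intro a ha
    rw [mem_sl] at ha ⊢
    refine ⟨by simpa using ha.2, by simpa using ha.1⟩
  · intro a _ b _ h
    exact add_right_cancel h
  · intro b hb
    rw [mem_sl] at hb
    exact ⟨b - s, mem_sl.2 ⟨hb.2, by simpa using hb.1⟩, by ring⟩

/-- the number of `s` with `a, b ∈ A ∩ (A + s)` -/
theorem card_common (A : Finset ℂ) {a b : ℂ} (ha : a ∈ A) (hb : b ∈ A) :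
    ((A - A).filter (fun s => a ∈ sl A s ∧ b ∈ sl A s)).card = rr A (a - b) := by
  unfold rr
  apply card_bij (fun s _ => a - s)
  · intro s hs
    obtain ⟨_, h1, h2⟩ := mem_filter.1 hs
    rw [mem_sl] at h1 h2 ⊢
    refine ⟨h1.2, ?_⟩
    have : a - s - (a - b) = b - s := by ring
    rw [this]
    exact h2.2
  · intro s _ t _ h
    exact sub_right_injective h
  · intro c hc
    rw [mem_sl] at hc
    refine ⟨a - c, mem_filter.2 ⟨sub_mem_sub ha hc.1, mem_sl.2 ⟨ha, by simpa using hc.1⟩,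
      mem_sl.2 ⟨hb, ?_⟩⟩, by ring⟩
    have : b - (a - c) = c - (a - b) := by ring
    rw [this]
    exact hc.2

theorem sum_card_sl (A : Finset ℂ) : ∑ s ∈ A - A, (sl A s).card = A.card * A.card := by
  classical
  have h1 : A.card * A.card = ∑ s ∈ A - A, ((A ×ˢ A).filter (fun p => p.1 - p.2 = s)).card := by
    rw [← card_product]
    exact card_eq_sum_card_fiberwise fun p hp =>
      sub_mem_sub (mem_product.1 hp).1 (mem_product.1 hp).2
  rw [h1]
  apply sum_congr rfl
  intro s _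
  apply card_bij (fun a _ => (a, a - s))
  · intro a ha
    rw [mem_sl] at ha
    exact mem_filter.2 ⟨mem_product.2 ⟨ha.1, ha.2⟩, by ring⟩
  · intro a _ b _ h
    exact (Prod.mk.inj h).1
  · rintro ⟨a, b⟩ hp
    obtain ⟨h1, h2⟩ := mem_filter.1 hp
    obtain ⟨h3, h4⟩ := mem_product.1 h1
    simp only at h2 h3 h4
    refine ⟨a, mem_sl.2 ⟨h3, ?_⟩, ?_⟩
    · rw [← h2]; simpa using h4
    · rw [← h2]; simp

/-- the sum over `s` of the number of pairs in `(A ∩ (A + s))²` with a property -/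
theorem sum_pairs (A : Finset ℂ) (T : ℂ × ℂ → Prop) [DecidablePred T] :
    ∑ s ∈ A - A, (((sl A s) ×ˢ (sl A s)).filter T).card =
      ∑ p ∈ (A ×ˢ A).filter T, rr A (p.1 - p.2) := by
  classical
  have h1 : ∀ s ∈ A - A, (((sl A s) ×ˢ (sl A s)).filter T).card =
      ∑ p ∈ (A ×ˢ A).filter T, if p.1 ∈ sl A s ∧ p.2 ∈ sl A s then 1 else 0 := by
    intro s _
    rw [← sum_filter, ← card_eq_sum_ones]
    congr 1
    ext p
    simp only [mem_filter, mem_product]
    constructor
    · rintro ⟨⟨h1, h2⟩, h3⟩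
      exact ⟨⟨⟨(mem_sl.1 h1).1, (mem_sl.1 h2).1⟩, h3⟩, h1, h2⟩
    · rintro ⟨⟨_, h3⟩, h1, h2⟩
      exact ⟨⟨h1, h2⟩, h3⟩
  rw [sum_congr rfl h1, sum_comm]
  apply sum_congr rfl
  intro p hp
  obtain ⟨h2, _⟩ := mem_filter.1 hp
  obtain ⟨h3, h4⟩ := mem_product.1 h2
  rw [← sum_filter, ← card_eq_sum_ones, card_common A h3 h4]

/-- additive energy in difference form -/
theorem energy_eq (A : Finset ℂ) : ∑ s ∈ A - A, (sl A s).card ^ 2 =
    (((A ×ˢ A) ×ˢ (A ×ˢ A)).filter (fun q => q.1.1 + q.1.2 = q.2.1 + q.2.2)).card := by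
  classical
  have h1 : ∀ s ∈ A - A, (sl A s).card ^ 2 = (((sl A s) ×ˢ (sl A s))).card := by
    intro s _
    rw [card_product, sq]
  rw [sum_congr rfl h1]
  have h2 : (((A ×ˢ A) ×ˢ (A ×ˢ A)).filter (fun q => q.1.1 + q.1.2 = q.2.1 + q.2.2)).card =
      ∑ s ∈ A - A, ((((A ×ˢ A) ×ˢ (A ×ˢ A)).filter (fun q => q.1.1 + q.1.2 = q.2.1 + q.2.2)).filter
        (fun q => q.1.1 - q.2.1 = s)).card := by
    apply card_eq_sum_card_fiberwise
    intro q hq
    obtain ⟨h3, _⟩ := mem_filter.1 (mem_coe.1 hq)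
    obtain ⟨h4, h5⟩ := mem_product.1 h3
    exact mem_coe.2 (sub_mem_sub (mem_product.1 h4).1 (mem_product.1 h5).1)
  rw [h2]
  apply sum_congr rfl
  intro s _
  apply card_bij (fun p _ => ((p.1, p.2 - s), (p.1 - s, p.2)))
  · intro p hp
    obtain ⟨h3, h4⟩ := mem_product.1 hp
    rw [mem_sl] at h3 h4
    apply mem_filter.2
    refine ⟨mem_filter.2 ⟨mem_product.2 ⟨mem_product.2 ⟨h3.1, h4.2⟩, mem_product.2 ⟨h3.2, h4.1⟩⟩, ?_⟩, ?_⟩
    · show p.1 + (p.2 - s) = p.1 - s + p.2
      ring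
    · show p.1 - (p.1 - s) = s
      ring
  · intro p _ q _ h
    obtain ⟨e1, e2⟩ := Prod.mk.inj h
    exact Prod.ext (Prod.mk.inj e1).1 (Prod.mk.inj e2).2
  · rintro ⟨⟨a, b⟩, ⟨c, d⟩⟩ hq
    obtain ⟨h3, h4⟩ := mem_filter.1 hq
    obtain ⟨h5, h6⟩ := mem_filter.1 h3
    obtain ⟨h7, h8⟩ := mem_product.1 h5
    obtain ⟨ha, hb⟩ := mem_product.1 h7
    obtain ⟨hc, hd⟩ := mem_product.1 h8
    simp only at ha hb hc hd h4 h6
    refine ⟨(a, d), mem_product.2 ⟨mem_sl.2 ⟨ha, ?_⟩, mem_sl.2 ⟨hd, ?_⟩⟩, ?_⟩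
    · rw [← h4]; simpa using hc
    · have : d - s = b := by rw [← h4]; linear_combination (-1 : ℂ) * h6
      rw [this]; exact hb
    · have e1 : d - s = b := by rw [← h4]; linear_combination (-1 : ℂ) * h6
      have e2 : a - s = c := by rw [← h4]; ring
      simp only [e1, e2]

/-- Balog–Szemerédi–Gowers with exponent four -/
theorem bsg (A : Finset ℂ) (hA : A.Nonempty) (K : ℝ) (hK : 1 ≤ K)
    (hE : (A.card : ℝ) ^ 3 / K ≤
      ((((A ×ˢ A) ×ˢ (A ×ˢ A)).filter (fun q => q.1.1 + q.1.2 = q.2.1 + q.2.2)).card : ℝ)) :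
    ∃ A' ⊆ A, A'.Nonempty ∧ (A.card : ℝ) ≤ 8 * K * A'.card ∧
      ((A' - A').card : ℝ) ≤ 16384 * K ^ 4 * A'.card := by
  classical
  have hn : (0 : ℝ) < A.card := by exact_mod_cast hA.card_pos
  have hK0 : 0 < K := by linarith
  set n : ℝ := (A.card : ℝ) with hnd
  rw [← energy_eq] at hE
  let bad : ℂ × ℂ → Prop := fun p => (rr A (p.1 - p.2) : ℝ) < n / (16 * K)
  -- the choice of `s`
  obtain ⟨s, hs, hs1⟩ : ∃ s ∈ A - A, 0 < ((sl A s).card : ℝ) ^ 2 -
      8 * ((((sl A s) ×ˢ (sl A s)).filter bad).card : ℝ) - n / (4 * K) * (sl A s).card := by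
    by_contra hcon
    push Not at hcon
    have h1 := sum_nonpos hcon
    rw [sum_sub_distrib, sum_sub_distrib, ← mul_sum, ← mul_sum] at h1
    have h2 : ∑ s ∈ A - A, ((((sl A s) ×ˢ (sl A s)).filter bad).card : ℝ) ≤ n * n * (n / (16 * K)) := by
      have h3 := sum_pairs A bad
      have h4 : ∑ s ∈ A - A, ((((sl A s) ×ˢ (sl A s)).filter bad).card : ℝ) =
          ∑ p ∈ (A ×ˢ A).filter bad, (rr A (p.1 - p.2) : ℝ) := by exact_mod_cast h3
      rw [h4]
      calc ∑ p ∈ (A ×ˢ A).filter bad, (rr A (p.1 - p.2) : ℝ)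
          ≤ ∑ p ∈ (A ×ˢ A).filter bad, n / (16 * K) :=
            sum_le_sum fun p hp => (mem_filter.1 hp).2.le
        _ = (((A ×ˢ A).filter bad).card : ℝ) * (n / (16 * K)) := by
            rw [sum_const, nsmul_eq_mul]
        _ ≤ (n * n) * (n / (16 * K)) := by
            apply mul_le_mul_of_nonneg_right _ (by positivity)
            have h5 := card_filter_le (A ×ˢ A) bad
            rw [card_product] at h5
            calc (((A ×ˢ A).filter bad).card : ℝ) ≤ ((A.card * A.card : ℕ) : ℝ) := by exact_mod_cast h5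
              _ = n * n := by push_cast; rfl
    have h3 : ∑ s ∈ A - A, ((sl A s).card : ℝ) = n * n := by
      have := sum_card_sl A
      rw [hnd]
      exact_mod_cast this
    have h4 : n ^ 3 / K ≤ ∑ s ∈ A - A, ((sl A s).card : ℝ) ^ 2 := by
      have : (∑ s ∈ A - A, ((sl A s).card : ℝ) ^ 2) =
          ((∑ s ∈ A - A, (sl A s).card ^ 2 : ℕ) : ℝ) := by push_cast; rfl
      rw [this]
      exact hE
    rw [h3] at h1
    have h5 : 8 * (n * n * (n / (16 * K))) = n ^ 3 / K / 2 := by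
      field_simp
      ring
    have h6 : n / (4 * K) * (n * n) = n ^ 3 / K / 4 := by
      field_simp
    have h7 : 0 < n ^ 3 / K := by positivity
    linarith
  set X := sl A s with hX
  have hXA : X ⊆ A := filter_subset _ _
  set m : ℝ := (X.card : ℝ) with hm
  have hm0 : 0 < m := by
    by_contra h0
    have h1 : m = 0 := le_antisymm (not_lt.1 h0) (by positivity)
    rw [h1] at hs1
    have h2 : (0 : ℝ) ≤ (((X ×ˢ X).filter bad).card : ℝ) := by positivity
    nlinarith
  have hmn : n / (4 * K) < m := by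
    have h2 : (0 : ℝ) ≤ (((X ×ˢ X).filter bad).card : ℝ) := by positivity
    have h3 : n / (4 * K) * m < m * m := by nlinarith
    exact lt_of_mul_lt_mul_right h3 hm0.le
  have hbad : (((X ×ˢ X).filter bad).card : ℝ) ≤ m ^ 2 / 8 := by
    have h2 : 0 ≤ n / (4 * K) * m := by positivity
    linarith
  -- the good points
  let bp : ℂ → Finset ℂ := fun a => X.filter fun b => bad (a, b)
  set A' := X.filter (fun a => ((bp a).card : ℝ) ≤ m / 4) with hA'
  have hA'X : A' ⊆ X := filter_subset _ _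
  have hA'c : m / 2 ≤ (A'.card : ℝ) := by
    have h1 : ((X.filter (fun a => ¬ ((bp a).card : ℝ) ≤ m / 4)).card : ℝ) * (m / 4) ≤ m ^ 2 / 8 := by
      refine le_trans ?_ hbad
      have h2 : ((X ×ˢ X).filter bad).card = ∑ a ∈ X, (bp a).card := by
        rw [card_filter, sum_product]
        apply sum_congr rfl
        intro a _
        rw [← card_filter]
      rw [h2]
      push_cast
      calc ((X.filter (fun a => ¬ ((bp a).card : ℝ) ≤ m / 4)).card : ℝ) * (m / 4)
          = ∑ a ∈ X.filter (fun a => ¬ ((bp a).card : ℝ) ≤ m / 4), m / 4 := by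
            rw [sum_const, nsmul_eq_mul]
        _ ≤ ∑ a ∈ X.filter (fun a => ¬ ((bp a).card : ℝ) ≤ m / 4), ((bp a).card : ℝ) :=
            sum_le_sum fun a ha => (not_le.1 (mem_filter.1 ha).2).le
        _ ≤ ∑ a ∈ X, ((bp a).card : ℝ) :=
            sum_le_sum_of_subset_of_nonneg (filter_subset _ _) fun _ _ _ => by positivity
    have h3 : (X.card : ℝ) = (A'.card : ℝ) +
        ((X.filter (fun a => ¬ ((bp a).card : ℝ) ≤ m / 4)).card : ℝ) := by
      have := card_filter_add_card_filter_not (s := X) (fun a => ((bp a).card : ℝ) ≤ m / 4)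
      exact_mod_cast this.symm
    have h4 : ((X.filter (fun a => ¬ ((bp a).card : ℝ) ≤ m / 4)).card : ℝ) ≤ m / 2 := by
      have h5 : ((X.filter (fun a => ¬ ((bp a).card : ℝ) ≤ m / 4)).card : ℝ) * (m / 4) ≤
          m / 2 * (m / 4) := by
        refine h1.trans (le_of_eq ?_)
        ring
      exact le_of_mul_le_mul_right h5 (div_pos hm0 (by norm_num))
    rw [← hm] at h3
    linarith
  have hA'ne : A'.Nonempty := by
    rw [← card_pos]
    have : (0 : ℝ) < A'.card := by linarith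
    exact_mod_cast this
  refine ⟨A', hA'X.trans hXA, hA'ne, ?_, ?_⟩
  · have h1 : n / (4 * K) < 2 * A'.card := by linarith
    rw [div_lt_iff₀ (by positivity)] at h1
    linarith
  -- representations of the differences
  have hrep : ∀ δ ∈ A' - A', m / 2 * (n / (16 * K)) ^ 2 ≤
      ((((A ×ˢ A) ×ˢ (A ×ˢ A)).filter
        (fun q => (q.1.1 - q.1.2) - (q.2.1 - q.2.2) = δ)).card : ℝ) := by
    intro δ hδ
    obtain ⟨a, ha, b, hb, rfl⟩ := mem_sub.1 hδ
    have haX := hA'X ha
    have hbX := hA'X hb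
    -- good middle points
    set G := X.filter (fun x => ¬ bad (a, x) ∧ ¬ bad (b, x)) with hG
    have hGc : m / 2 ≤ (G.card : ℝ) := by
      have h1 : X ⊆ G ∪ (bp a ∪ bp b) := by
        intro x hx
        by_cases h2 : bad (a, x)
        · exact mem_union_right _ (mem_union_left _ (mem_filter.2 ⟨hx, h2⟩))
        by_cases h3 : bad (b, x)
        · exact mem_union_right _ (mem_union_right _ (mem_filter.2 ⟨hx, h3⟩))
        exact mem_union_left _ (mem_filter.2 ⟨hx, h2, h3⟩)
      have h2 : (X.card : ℝ) ≤ G.card + ((bp a).card + (bp b).card) := by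
        have := (card_le_card h1).trans ((card_union_le _ _).trans
          (Nat.add_le_add_left (card_union_le _ _) _))
        exact_mod_cast this
      have h3 := (mem_filter.1 ha).2
      have h4 := (mem_filter.1 hb).2
      rw [← hm] at h2
      linarith
    -- injection from a sigma type
    have hinj : ∑ x ∈ G, (rr A (a - x)) * (rr A (b - x)) ≤
        (((A ×ˢ A) ×ˢ (A ×ˢ A)).filter
          (fun q => (q.1.1 - q.1.2) - (q.2.1 - q.2.2) = a - b)).card := by
      have h1 : ∑ x ∈ G, (rr A (a - x)) * (rr A (b - x)) =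
          (G.sigma (fun x => (sl A (a - x)) ×ˢ (sl A (b - x)))).card := by
        rw [card_sigma]
        apply sum_congr rfl
        intro x _
        rw [card_product]
        rfl
      rw [h1]
      apply card_le_card_of_injOn
        (fun z => ((z.2.1, z.2.1 - (a - z.1)), (z.2.2, z.2.2 - (b - z.1))))
      · intro z hz
        obtain ⟨_, h3⟩ := mem_sigma.1 (mem_coe.1 hz)
        obtain ⟨h4, h5⟩ := mem_product.1 h3
        rw [mem_sl] at h4 h5
        apply mem_coe.2
        apply mem_filter.2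
        refine ⟨mem_product.2 ⟨mem_product.2 ⟨h4.1, h4.2⟩, mem_product.2 ⟨h5.1, h5.2⟩⟩, ?_⟩
        show z.2.1 - (z.2.1 - (a - z.1)) - (z.2.2 - (z.2.2 - (b - z.1))) = a - b
        ring
      · rintro ⟨x, p⟩ _ ⟨y, q⟩ _ h
        obtain ⟨e1, e2⟩ := Prod.mk.inj h
        obtain ⟨e3, e4⟩ := Prod.mk.inj e1
        obtain ⟨e5, _⟩ := Prod.mk.inj e2
        simp only at e3 e4 e5
        have e6 : x = y := by linear_combination e4 - e3
        subst e6
        have e7 : p = q := Prod.ext e3 e5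
        subst e7
        rfl
    have h2 : (G.card : ℝ) * (n / (16 * K)) ^ 2 ≤
        ((∑ x ∈ G, (rr A (a - x)) * (rr A (b - x)) : ℕ) : ℝ) := by
      push_cast
      rw [← nsmul_eq_mul, ← sum_const]
      apply sum_le_sum
      intro x hx
      obtain ⟨_, h3, h4⟩ := mem_filter.1 hx
      have h5 : n / (16 * K) ≤ (rr A (a - x) : ℝ) := not_lt.1 h3
      have h6 : n / (16 * K) ≤ (rr A (b - x) : ℝ) := not_lt.1 h4
      rw [sq]
      exact mul_le_mul h5 h6 (by positivity) (by positivity)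
    calc m / 2 * (n / (16 * K)) ^ 2 ≤ (G.card : ℝ) * (n / (16 * K)) ^ 2 :=
          mul_le_mul_of_nonneg_right hGc (by positivity)
      _ ≤ _ := h2
      _ ≤ _ := by exact_mod_cast hinj
  have htot : ((A' - A').card : ℝ) * (m / 2 * (n / (16 * K)) ^ 2) ≤ n ^ 4 := by
    have h1 : ∑ δ ∈ A' - A', (((A ×ˢ A) ×ˢ (A ×ˢ A)).filter
        (fun q => (q.1.1 - q.1.2) - (q.2.1 - q.2.2) = δ)).card ≤ ((A ×ˢ A) ×ˢ (A ×ˢ A)).card := by
      rw [← card_biUnion]
      · exact card_le_card (biUnion_subset.2 fun δ _ => filter_subset _ _)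
      · intro δ _ ε _ hne
        rw [Function.onFun, disjoint_left]
        intro q hq1 hq2
        exact hne ((mem_filter.1 hq1).2.symm.trans (mem_filter.1 hq2).2)
    have h2 : (((A ×ˢ A) ×ˢ (A ×ˢ A)).card : ℝ) = n ^ 4 := by
      rw [card_product, card_product, hnd]
      push_cast
      ring
    rw [← h2, ← nsmul_eq_mul, ← sum_const]
    refine (sum_le_sum hrep).trans ?_
    exact_mod_cast h1
  -- conclusion
  have h1 : m / 2 * (n / (16 * K)) ^ 2 ≥ n / (8 * K) * (n / (16 * K)) ^ 2 := by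
    apply mul_le_mul_of_nonneg_right _ (by positivity)
    have : n / (8 * K) = n / (4 * K) / 2 := by field_simp; ring
    rw [this]
    linarith
  have h2 : ((A' - A').card : ℝ) * (n / (8 * K) * (n / (16 * K)) ^ 2) ≤ n ^ 4 :=
    (mul_le_mul_of_nonneg_left h1 (by positivity)).trans htot
  have h3 : ((A' - A').card : ℝ) * (n / (8 * K) * (n / (16 * K)) ^ 2) =
      ((A' - A').card : ℝ) * n ^ 3 / (2048 * K ^ 3) := by
    field_simp
    ring
  rw [h3, div_le_iff₀ (by positivity)] at h2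
  have h4 : ((A' - A').card : ℝ) ≤ 2048 * K ^ 3 * n := by
    have h5 : ((A' - A').card : ℝ) * n ^ 3 ≤ (2048 * K ^ 3 * n) * n ^ 3 := by
      refine h2.trans (le_of_eq ?_)
      ring
    exact le_of_mul_le_mul_right h5 (by positivity)
  have h5 : n ≤ 8 * K * A'.card := by
    have h6 : n / (4 * K) < 2 * A'.card := by linarith
    rw [div_lt_iff₀ (by positivity)] at h6
    linarith
  calc ((A' - A').card : ℝ) ≤ 2048 * K ^ 3 * n := h4
    _ ≤ 2048 * K ^ 3 * (8 * K * A'.card) := mul_le_mul_of_nonneg_left h5 (by positivity)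
    _ = _ := by ring

end Pool.Agent.SDD.BG
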