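import Mathlib

/-!
# Pinned distances of sets of small doubling from an energy bound
-/

set_option autoImplicit false

namespace Pool.Agent.SDD

open ComplexConjugate Finset
open scoped Pointwise NNRat

/-- Cauchy–Schwarz for the fibres of a map -/
theorem card_sq_le {ι κ : Type*} [DecidableEq κ] (s : Finset ι) (f : ι → κ) :
    (s.card : ℝ) ^ 2 ≤ ((s.image f).card : ℝ) *
      (((s ×ˢ s).filter (fun p => f p.1 = f p.2)).card : ℝ) := by
  classical
  have h1 : (s.card : ℝ) = ∑ k ∈ s.image f, ((s.filter (fun a => f a = k)).card : ℝ) := by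
    exact_mod_cast card_eq_sum_card_image f s
  have h2 : (((s ×ˢ s).filter (fun p => f p.1 = f p.2)).card : ℝ) =
      ∑ k ∈ s.image f, ((s.filter (fun a => f a = k)).card : ℝ) ^ 2 := by
    have h3 : ((s ×ˢ s).filter (fun p => f p.1 = f p.2)).card =
        ∑ k ∈ s.image f, (((s ×ˢ s).filter (fun p => f p.1 = f p.2)).filter (fun p => f p.1 = k)).card := by
      apply card_eq_sum_card_fiberwise
      intro p hp
      exact mem_image_of_mem f (mem_product.1 (mem_filter.1 hp).1).1
    rw [h3]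
    push_cast
    apply sum_congr rfl
    intro k _
    have h4 : ((s ×ˢ s).filter (fun p => f p.1 = f p.2)).filter (fun p => f p.1 = k) =
        (s.filter (fun a => f a = k)) ×ˢ (s.filter (fun a => f a = k)) := by
      ext p
      simp only [mem_filter, mem_product]
      constructor
      · rintro ⟨⟨⟨h5, h6⟩, h7⟩, h8⟩
        exact ⟨⟨h5, h8⟩, h6, by rw [← h7, h8]⟩
      · rintro ⟨⟨h5, h8⟩, h6, h7⟩
        exact ⟨⟨⟨h5, h6⟩, by rw [h7, h8]⟩, h8⟩
    rw [h4, card_product]
    push_cast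
    ring
  rw [h1, h2]
  have h5 := sum_mul_sq_le_sq_mul_sq (s.image f) (fun _ => (1 : ℝ))
    (fun k => ((s.filter (fun a => f a = k)).card : ℝ))
  simpa using h5

/-- Plünnecke–Ruzsa in real form -/
theorem plu (Q : Finset ℂ) (hQ : Q.Nonempty) (K : ℝ)
    (hK : ((Q + Q).card : ℝ) ≤ K * Q.card ∨ ((Q - Q).card : ℝ) ≤ K * Q.card) (m n : ℕ) :
    ((m • Q - n • Q).card : ℝ) ≤ K ^ (m + n) * Q.card := by
  classical
  have hc : (0 : ℝ) < Q.card := by exact_mod_cast hQ.card_pos
  rcases hK with hK | hK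
  · have h1 := pluennecke_ruzsa_inequality_nsmul_sub_nsmul_add hQ Q m n
    have h2 : ((m • Q - n • Q).card : ℝ) ≤ (((Q + Q).card : ℝ) / Q.card) ^ (m + n) * Q.card := by
      have h3 := (NNRat.cast_le (K := ℝ)).2 h1
      push_cast at h3
      exact h3
    refine h2.trans (mul_le_mul_of_nonneg_right (pow_le_pow_left₀ (by positivity) ?_ _) hc.le)
    rwa [div_le_iff₀ hc]
  · have h1 := pluennecke_ruzsa_inequality_nsmul_sub_nsmul_sub hQ Q m n
    have h2 : ((m • Q - n • Q).card : ℝ) ≤ (((Q - Q).card : ℝ) / Q.card) ^ (m + n) * Q.card := by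
      have h3 := (NNRat.cast_le (K := ℝ)).2 h1
      push_cast at h3
      exact h3
    refine h2.trans (mul_le_mul_of_nonneg_right (pow_le_pow_left₀ (by positivity) ?_ _) hc.le)
    rwa [div_le_iff₀ hc]

/-- sums and differences -/
noncomputable def SD (Q : Finset ℂ) : Finset ℂ := (Q + Q) ∪ (Q - Q)

theorem card_SD (Q : Finset ℂ) (hQ : Q.Nonempty) (K : ℝ)
    (hK : ((Q + Q).card : ℝ) ≤ K * Q.card ∨ ((Q - Q).card : ℝ) ≤ K * Q.card) :
    ((SD Q + SD Q).card : ℝ) ≤ 3 * (K ^ 4 * Q.card) := by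
  classical
  have e1 : (Q + Q) + (Q + Q) = (4 : ℕ) • Q - (0 : ℕ) • Q := by
    rw [zero_nsmul, sub_zero, show (4 : ℕ) = 2 + 2 from rfl, add_nsmul, two_nsmul]
  have e2 : (Q + Q) + (Q - Q) = (3 : ℕ) • Q - (1 : ℕ) • Q := by
    rw [one_nsmul, show (3 : ℕ) = 2 + 1 from rfl, add_nsmul, two_nsmul, one_nsmul, add_sub_assoc]
  have e3 : (Q - Q) + (Q - Q) = (2 : ℕ) • Q - (2 : ℕ) • Q := by
    rw [two_nsmul, sub_add_sub_comm]
  have hsub : SD Q + SD Q ⊆ ((Q + Q) + (Q + Q)) ∪ ((Q + Q) + (Q - Q)) ∪ ((Q - Q) + (Q - Q)) := by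
    unfold SD
    rw [union_add, add_union, add_union]
    intro x hx
    simp only [mem_union] at hx ⊢
    rcases hx with (h | h) | (h | h)
    · exact Or.inl (Or.inl h)
    · exact Or.inl (Or.inr h)
    · rw [add_comm] at h
      exact Or.inl (Or.inr h)
    · exact Or.inr h
  have h1 := plu Q hQ K hK 4 0
  have h2 := plu Q hQ K hK 3 1
  have h3 := plu Q hQ K hK 2 2
  rw [← e1] at h1
  rw [← e2] at h2
  rw [← e3] at h3
  have h4 : ((SD Q + SD Q).card : ℝ) ≤ ((Q + Q) + (Q + Q)).card + ((Q + Q) + (Q - Q)).card +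
      ((Q - Q) + (Q - Q)).card := by
    have := (card_le_card hsub).trans ((card_union_le _ _).trans
      (Nat.add_le_add_right (card_union_le _ _) _))
    exact_mod_cast this
  norm_num at h1 h2 h3
  linarith

theorem dist_of_energy
    (hE : ∀ G : Finset ℂ, (((G ×ˢ G).filter (fun p => (p.1 * conj p.2).re = 0)).card : ℝ) ≤
      200 * ((G + G).card : ℝ) * (1 + Real.log ((G + G).card : ℝ))) :
    ∃ c : ℝ, 0 < c ∧ ∀ (P : Finset ℂ), 2 ≤ P.card → ∀ K : ℝ,
      (((P + P).card : ℝ) ≤ K * P.card ∨ ((P - P).card : ℝ) ≤ K * P.card) →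
      ∀ x : ℂ, ∀ S ⊆ P, 2 ≤ S.card →
        c * (S.card : ℝ) ^ 2 / (K ^ 4 * P.card * Real.log P.card) ≤
          (((S.erase x).image (fun y => dist x y)).card : ℝ) := by
  classical
  refine ⟨1 / 24000, by norm_num, ?_⟩
  intro P hP K hK x S hSP hS
  have hn : (2 : ℝ) ≤ P.card := by exact_mod_cast hP
  -- translate
  set Q := P.image (fun y => y - x) with hQ
  have hQc : Q.card = P.card := card_image_of_injective _ sub_left_injective
  have hQne : Q.Nonempty := by
    rw [← card_pos, hQc]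
    omega
  have hadd : (Q + Q).card ≤ (P + P).card := by
    have h1 : Q + Q ⊆ (P + P).image (fun y => y - 2 * x) := by
      intro y hy
      obtain ⟨a, ha, b, hb, rfl⟩ := mem_add.1 hy
      obtain ⟨a', ha', rfl⟩ := mem_image.1 ha
      obtain ⟨b', hb', rfl⟩ := mem_image.1 hb
      exact mem_image.2 ⟨a' + b', add_mem_add ha' hb', by ring⟩
    exact (card_le_card h1).trans card_image_le
  have hsubc : (Q - Q).card ≤ (P - P).card := by
    have h1 : Q - Q ⊆ P - P := by
      intro y hy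
      obtain ⟨a, ha, b, hb, rfl⟩ := mem_sub.1 hy
      obtain ⟨a', ha', rfl⟩ := mem_image.1 ha
      obtain ⟨b', hb', rfl⟩ := mem_image.1 hb
      exact mem_sub.2 ⟨a', ha', b', hb', by ring⟩
    exact card_le_card h1
  -- the smaller constant
  obtain ⟨K0, hK0, hK01, hK0n, hK0K⟩ : ∃ K0 : ℝ,
      (((Q + Q).card : ℝ) ≤ K0 * Q.card ∨ ((Q - Q).card : ℝ) ≤ K0 * Q.card) ∧ 1 ≤ K0 ∧
        K0 ≤ P.card ∧ K0 ≤ K := by
    have hQp : (0 : ℝ) < Q.card := by rw [hQc]; linarith
    have hle1 : Q.card ≤ (Q + Q).card := card_le_card_add_right hQne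
    have hle2 : Q.card ≤ (Q - Q).card := card_le_card_sub_right hQne
    have hle3 : (Q + Q).card ≤ Q.card * Q.card := card_add_le
    have hle4 : (Q - Q).card ≤ Q.card * Q.card := card_sub_le
    rcases hK with hK | hK
    · refine ⟨((Q + Q).card : ℝ) / Q.card, Or.inl ?_, ?_, ?_, ?_⟩
      · rw [div_mul_cancel₀ _ hQp.ne']
      · rw [one_le_div hQp]
        exact_mod_cast hle1
      · rw [div_le_iff₀ hQp, ← hQc]
        exact_mod_cast hle3
      · rw [div_le_iff₀ hQp, hQc]
        refine le_trans ?_ hK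
        exact_mod_cast hadd
    · refine ⟨((Q - Q).card : ℝ) / Q.card, Or.inr ?_, ?_, ?_, ?_⟩
      · rw [div_mul_cancel₀ _ hQp.ne']
      · rw [one_le_div hQp]
        exact_mod_cast hle2
      · rw [div_le_iff₀ hQp, ← hQc]
        exact_mod_cast hle4
      · rw [div_le_iff₀ hQp, hQc]
        refine le_trans ?_ hK
        exact_mod_cast hsubc
  -- the energy
  have hSD := card_SD Q hQne K0 hK0
  rw [hQc] at hSD
  set M : ℝ := ((SD Q + SD Q).card : ℝ) with hM
  have hM1 : 1 ≤ M := by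
    have h1 : (SD Q).Nonempty := (hQne.add hQne).mono subset_union_left
    have h2 : 0 < (SD Q + SD Q).card := (h1.add h1).card_pos
    rw [hM]
    exact_mod_cast h2
  have hlog2 : (1 / 2 : ℝ) ≤ Real.log 2 := by
    have := Real.log_two_gt_d9
    linarith
  have hlogn : Real.log 2 ≤ Real.log P.card := Real.log_le_log (by norm_num) hn
  have hlogM : 1 + Real.log M ≤ 10 * Real.log P.card := by
    have h1 : M ≤ 4 * (P.card : ℝ) ^ 5 := by
      have h2 : K0 ^ 4 ≤ (P.card : ℝ) ^ 4 := pow_le_pow_left₀ (by linarith) hK0n 4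
      have h3 : K0 ^ 4 * (P.card : ℝ) ≤ (P.card : ℝ) ^ 4 * P.card :=
        mul_le_mul_of_nonneg_right h2 (by linarith)
      have h4 : (P.card : ℝ) ^ 4 * P.card = (P.card : ℝ) ^ 5 := by ring
      have h5 : (0 : ℝ) ≤ (P.card : ℝ) ^ 5 := by positivity
      linarith
    have h2 : Real.log M ≤ Real.log (4 * (P.card : ℝ) ^ 5) := Real.log_le_log (by linarith) h1
    rw [Real.log_mul (by norm_num) (by positivity), Real.log_pow] at h2
    have h3 : Real.log 4 = 2 * Real.log 2 := by
      rw [show (4 : ℝ) = 2 ^ 2 by norm_num, Real.log_pow]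
      norm_num
    rw [h3] at h2
    push_cast at h2
    linarith
  have hlogM0 : 0 ≤ Real.log M := Real.log_nonneg hM1
  have hEn := hE (SD Q)
  rw [← hM] at hEn
  have hEb : (((SD Q ×ˢ SD Q).filter (fun p => (p.1 * conj p.2).re = 0)).card : ℝ) ≤
      6000 * (K ^ 4 * P.card * Real.log P.card) := by
    refine hEn.trans ?_
    have h1 : 200 * M * (1 + Real.log M) ≤ 200 * (3 * (K0 ^ 4 * P.card)) * (10 * Real.log P.card) := by
      apply mul_le_mul _ hlogM (by linarith) (by positivity)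
      linarith
    refine h1.trans ?_
    have h2 : K0 ^ 4 ≤ K ^ 4 := pow_le_pow_left₀ (by linarith) hK0K 4
    have h3 : 0 ≤ (P.card : ℝ) * Real.log P.card := mul_nonneg (by linarith) (by linarith)
    have h4 := mul_le_mul_of_nonneg_right h2 h3
    nlinarith
  -- the pairs with equal distance
  have hinj : ((((S.erase x) ×ˢ (S.erase x)).filter (fun p => dist x p.1 = dist x p.2)).card : ℝ) ≤
      (((SD Q ×ˢ SD Q).filter (fun p => (p.1 * conj p.2).re = 0)).card : ℝ) := by
    norm_cast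
    apply card_le_card_of_injOn (fun p => ((p.1 - x) + (p.2 - x), (p.1 - x) - (p.2 - x)))
    · intro p hp
      obtain ⟨hp1, hp2⟩ := mem_filter.1 (mem_coe.1 hp)
      obtain ⟨h1, h2⟩ := mem_product.1 hp1
      have h1Q : p.1 - x ∈ Q := mem_image.2 ⟨p.1, hSP (mem_erase.1 h1).2, rfl⟩
      have h2Q : p.2 - x ∈ Q := mem_image.2 ⟨p.2, hSP (mem_erase.1 h2).2, rfl⟩
      apply mem_coe.2
      apply mem_filter.2
      refine ⟨mem_product.2 ⟨mem_union_left _ (add_mem_add h1Q h2Q),
        mem_union_right _ (sub_mem_sub h1Q h2Q)⟩, ?_⟩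
      show (((p.1 - x) + (p.2 - x)) * conj ((p.1 - x) - (p.2 - x))).re = 0
      have hd : ‖p.1 - x‖ = ‖p.2 - x‖ := by
        rw [← dist_eq_norm, ← dist_eq_norm, dist_comm, dist_comm p.2]
        exact hp2
      set α := p.1 - x with hα
      set β := p.2 - x with hβ
      have hsq : Complex.normSq α = Complex.normSq β := by
        rw [Complex.normSq_eq_norm_sq, Complex.normSq_eq_norm_sq, hd]
      rw [Complex.normSq_apply, Complex.normSq_apply] at hsq
      simp only [map_sub, Complex.mul_re, Complex.add_re, Complex.sub_re, Complex.conj_re,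
        Complex.add_im, Complex.sub_im, Complex.conj_im]
      linarith
    · intro p _ q _ h
      obtain ⟨e1, e2⟩ := Prod.mk.inj h
      have e3 : p.1 = q.1 := by linear_combination (e1 + e2) / 2
      have e4 : p.2 = q.2 := by linear_combination (e1 - e2) / 2
      exact Prod.ext e3 e4
  have hcs := card_sq_le (S.erase x) (fun y => dist x y)
  have hcard : (S.card : ℝ) / 2 ≤ ((S.erase x).card : ℝ) := by
    have h1 : S.card - 1 ≤ (S.erase x).card := pred_card_le_card_erase
    have h2 : (2 : ℝ) ≤ S.card := by exact_mod_cast hS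
    have h3 : (S.card : ℝ) ≤ (S.erase x).card + 1 := by
      have : S.card ≤ (S.erase x).card + 1 := by omega
      exact_mod_cast this
    linarith
  set D : ℝ := (((S.erase x).image (fun y => dist x y)).card : ℝ) with hD
  have hD0 : 0 ≤ D := by positivity
  have hpos : 0 < K ^ 4 * P.card * Real.log P.card := by
    have : 0 < K := by linarith
    have : 0 < Real.log P.card := by linarith
    have : (0 : ℝ) < P.card := by linarith
    positivity
  have hfin : (S.card : ℝ) ^ 2 / 4 ≤ D * (6000 * (K ^ 4 * P.card * Real.log P.card)) := by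
    calc (S.card : ℝ) ^ 2 / 4 = ((S.card : ℝ) / 2) ^ 2 := by ring
      _ ≤ ((S.erase x).card : ℝ) ^ 2 := pow_le_pow_left₀ (by positivity) hcard 2
      _ ≤ _ := hcs
      _ ≤ D * (6000 * (K ^ 4 * P.card * Real.log P.card)) :=
          mul_le_mul_of_nonneg_left (hinj.trans hEb) hD0
  rw [div_le_iff₀ hpos]
  linarith

end Pool.Agent.SDD
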