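import Pool.Agent.SDD.Main
import Pool.Agent.SDD.BSG

/-!
# Pinned distances to sets of large additive energy
-/

set_option autoImplicit false

open Finset
open scoped Pointwise

namespace Pool.Agent.SDD

/-- Every point of the plane sees many distances to a set of large additive energy. -/
theorem pinned_energy : ∃ c : ℝ, 0 < c ∧ ∀ (P : Finset ℂ), 2 ≤ P.card → ∀ K : ℝ,
    (P.card : ℝ) ^ 3 ≤
      K * ((((P ×ˢ P) ×ˢ (P ×ˢ P)).filter (fun q => q.1.1 + q.1.2 = q.2.1 + q.2.2)).card : ℝ) →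
    ∀ x : ℂ, c * (P.card : ℝ) / (K ^ 17 * Real.log P.card) ≤
        (((P.erase x).image (fun y => dist x y)).card : ℝ) := by
  classical
  obtain ⟨c, hc, h⟩ := pinned
  refine ⟨min (c / 2 ^ 71) (1 / 2 ^ 10), by positivity, ?_⟩
  intro P hP K hE x
  have hn : (2 : ℝ) ≤ P.card := by exact_mod_cast hP
  set n : ℝ := (P.card : ℝ) with hnd
  have hlog2 : (1 / 2 : ℝ) ≤ Real.log 2 := by
    have := Real.log_two_gt_d9
    linarith
  have hlogn : Real.log 2 ≤ Real.log n := Real.log_le_log (by norm_num) hn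
  set E : ℝ := ((((P ×ˢ P) ×ˢ (P ×ˢ P)).filter
    (fun q => q.1.1 + q.1.2 = q.2.1 + q.2.2)).card : ℝ) with hEd
  -- `E ≤ n³`
  have hEn : E ≤ n ^ 3 := by
    have h1 : (((P ×ˢ P) ×ˢ (P ×ˢ P)).filter
        (fun q => q.1.1 + q.1.2 = q.2.1 + q.2.2)).card ≤ (P ×ˢ (P ×ˢ P)).card := by
      apply card_le_card_of_injOn (fun q => (q.1.1, q.2))
      · intro q hq
        obtain ⟨h2, _⟩ := mem_filter.1 (mem_coe.1 hq)
        obtain ⟨h3, h4⟩ := mem_product.1 h2
        exact mem_coe.2 (mem_product.2 ⟨(mem_product.1 h3).1, h4⟩)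
      · intro q hq q' hq' he
        obtain ⟨_, h2⟩ := mem_filter.1 (mem_coe.1 hq)
        obtain ⟨_, h3⟩ := mem_filter.1 (mem_coe.1 hq')
        obtain ⟨e1, e2⟩ := Prod.mk.inj he
        have e3 : q.1.2 = q'.1.2 := by
          rw [e2] at h2
          have : q.1.1 + q.1.2 = q'.1.1 + q'.1.2 := h2.trans h3.symm
          rw [e1] at this
          exact add_left_cancel this
        exact Prod.ext (Prod.ext e1 e3) e2
    have h2 : (((P ×ˢ (P ×ˢ P)).card : ℕ) : ℝ) = n ^ 3 := by
      rw [card_product, card_product, hnd]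
      push_cast
      ring
    rw [← h2, hEd]
    exact_mod_cast h1
  have hE0 : 0 ≤ E := by positivity
  have hn3 : 0 < n ^ 3 := by positivity
  have hK0 : 0 < K := by
    by_contra h0
    have : K * E ≤ 0 := mul_nonpos_of_nonpos_of_nonneg (not_lt.1 h0) hE0
    linarith
  have hK1 : 1 ≤ K := by
    by_contra h0
    have h1 : K * E ≤ K * n ^ 3 := mul_le_mul_of_nonneg_left hEn hK0.le
    have h2 : K * n ^ 3 < 1 * n ^ 3 := mul_lt_mul_of_pos_right (not_le.1 h0) hn3
    linarith
  obtain ⟨A, hAP, hAne, hAn, hAd⟩ := BG.bsg P (card_pos.1 (by omega)) K hK1 (by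
    rw [div_le_iff₀ hK0]
    linarith [mul_comm K E])
  have hlpos : 0 < Real.log n := by linarith
  have hden : 0 < K ^ 17 * Real.log n := by positivity
  rw [div_le_iff₀ hden]
  set D : ℝ := (((P.erase x).image (fun y => dist x y)).card : ℝ) with hD
  -- at least one distance
  have hD1 : 1 ≤ D := by
    have h1 : (P.erase x).Nonempty := by
      rw [← card_pos]
      have := pred_card_le_card_erase (s := P) (a := x)
      omega
    have h2 := (h1.image (fun y => dist x y)).card_pos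
    rw [hD]
    exact_mod_cast h2
  by_cases hA2 : 2 ≤ A.card
  · have h1 := h A hA2 (16384 * K ^ 4) (Or.inr hAd) x A (Subset.refl A) hA2
    have hA2r : (2 : ℝ) ≤ A.card := by exact_mod_cast hA2
    have hAle : (A.card : ℝ) ≤ n := by
      rw [hnd]
      exact_mod_cast card_le_card hAP
    have hlA : Real.log (A.card : ℝ) ≤ Real.log n := Real.log_le_log (by linarith) hAle
    have hlA0 : 0 < Real.log (A.card : ℝ) := Real.log_pos (by linarith)
    have h2 : (((A.erase x).image (fun y => dist x y)).card : ℝ) ≤ D := by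
      rw [hD]
      exact_mod_cast card_le_card (image_subset_image (erase_subset_erase x hAP))
    have h3 : c * (A.card : ℝ) / ((16384 * K ^ 4) ^ 4 * Real.log A.card) ≤ D := by
      refine le_trans (le_of_eq ?_) (h1.trans h2)
      field_simp
    have h4 : c * (A.card : ℝ) ≤ D * ((16384 * K ^ 4) ^ 4 * Real.log n) := by
      rw [div_le_iff₀ (by positivity)] at h3
      refine h3.trans ?_
      apply mul_le_mul_of_nonneg_left _ (by linarith)
      exact mul_le_mul_of_nonneg_left hlA (by positivity)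
    have h5 : min (c / 2 ^ 71) (1 / 2 ^ 10) ≤ c / 2 ^ 71 := min_le_left _ _
    have hn0 : 0 < n := by linarith
    have hmin0 : (0 : ℝ) < min (c / 2 ^ 71) (1 / 2 ^ 10) := by positivity
    calc min (c / 2 ^ 71) (1 / 2 ^ 10) * n ≤ c / 2 ^ 71 * n := mul_le_mul_of_nonneg_right h5 hn0.le
      _ ≤ c / 2 ^ 71 * (8 * K * A.card) := mul_le_mul_of_nonneg_left hAn (by positivity)
      _ = (c * A.card) * (8 * K / 2 ^ 71) := by ring
      _ ≤ (D * ((16384 * K ^ 4) ^ 4 * Real.log n)) * (8 * K / 2 ^ 71) :=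
          mul_le_mul_of_nonneg_right h4 (by positivity)
      _ = D * (K ^ 17 * Real.log n) * (2 ^ 59 / 2 ^ 71) := by ring
      _ ≤ D * (K ^ 17 * Real.log n) * 1 := by
          apply mul_le_mul_of_nonneg_left _ (by positivity)
          norm_num
      _ = _ := by ring
  · have hA1 : (A.card : ℝ) ≤ 1 := by
      have : A.card ≤ 1 := by omega
      exact_mod_cast this
    have h1 : n ≤ 8 * K := by nlinarith
    have h5 : min (c / 2 ^ 71) (1 / 2 ^ 10) ≤ 1 / 2 ^ 10 := min_le_right _ _
    have hK17 : K ≤ K ^ 17 := by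
      calc K = K ^ 1 := by ring
        _ ≤ K ^ 17 := pow_le_pow_right₀ hK1 (by norm_num)
    calc min (c / 2 ^ 71) (1 / 2 ^ 10) * n ≤ 1 / 2 ^ 10 * n :=
          mul_le_mul_of_nonneg_right h5 (by linarith)
      _ ≤ 1 / 2 ^ 10 * (8 * K) := mul_le_mul_of_nonneg_left h1 (by norm_num)
      _ ≤ K ^ 17 * (1 / 2) := by linarith
      _ ≤ K ^ 17 * Real.log n := mul_le_mul_of_nonneg_left (by linarith) (by positivity)
      _ = 1 * (K ^ 17 * Real.log n) := by ring
      _ ≤ D * (K ^ 17 * Real.log n) := mul_le_mul_of_nonneg_right hD1 hden.le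

end Pool.Agent.SDD
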