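import Pool.Agent.SDD.Sol

/-!
# The energy bound for perpendicular pairs
-/

set_option autoImplicit false

open Finset ComplexConjugate
open scoped Pointwise

namespace Pool.Agent.SDD

theorem re_conj (a b : ℂ) : (a * conj b).re = a.re * b.re + a.im * b.im := by
  rw [Complex.mul_re, Complex.conj_re, Complex.conj_im]; ring

theorem energy (G : Finset ℂ) (hG : G.Nonempty) :
    (((G ×ˢ G).filter (fun p => (p.1 * conj p.2).re = 0)).card : ℝ) ≤
      100 * ((G + G).card : ℝ) * (1 + Real.log ((G + G).card : ℝ)) := by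
  classical
  set Q := (G + G).card with hQ
  have hGG : (G + G).Nonempty := hG.add hG
  have hQ1 : 1 ≤ Q := Finset.card_pos.2 hGG
  have hGQ : G.card ≤ Q := Finset.card_le_card_add_left hG
  set Gp := G.filter (fun a => 0 < a.re) with hGp
  set Gm := G.filter (fun a => a.re < 0) with hGm
  have hpA : ∀ a ∈ Gp, ∀ b ∈ Gp, 0 < a.re * b.re := by
    intro a ha b hb
    rw [hGp, Finset.mem_filter] at ha hb
    exact mul_pos ha.2 hb.2
  have hmA : ∀ a ∈ Gm, ∀ b ∈ Gm, 0 < a.re * b.re := by
    intro a ha b hb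
    rw [hGm, Finset.mem_filter] at ha hb
    exact mul_pos_of_neg_of_neg ha.2 hb.2
  have hpG : Gp ⊆ G := Finset.filter_subset _ _
  have hmG : Gm ⊆ G := Finset.filter_subset _ _
  have hpp : (Gp + Gp).card ≤ Q := Finset.card_le_card (Finset.add_subset_add hpG hpG)
  have hmm : (Gm + Gm).card ≤ Q := Finset.card_le_card (Finset.add_subset_add hmG hmG)
  have hpm : (Gp + Gm).card ≤ Q := Finset.card_le_card (Finset.add_subset_add hpG hmG)
  have hmp : (Gm + Gp).card ≤ Q := Finset.card_le_card (Finset.add_subset_add hmG hpG)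
  have c1 := cross Gp Gp hpA hpA Q hQ1 hpp hpp hpp
  have c2 := cross Gp Gm hpA hmA Q hQ1 hpp hmm hpm
  have c3 := cross Gm Gp hmA hpA Q hQ1 hmm hpp hmp
  have c4 := cross Gm Gm hmA hmA Q hQ1 hmm hmm hmm
  set R := fun (A B : Finset ℂ) => (A ×ˢ B).filter (fun p => (p.1 * conj p.2).re = 0) with hR
  set W := (G ×ˢ G).filter (fun p => (p.1 * conj p.2).re = 0) with hW
  set V1 := (G ×ˢ G).filter (fun p => p.1.re = 0 ∧ p.2.im = 0) with hV1
  set V2 := (G ×ˢ G).filter (fun p => p.2.re = 0 ∧ p.1.im = 0) with hV2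
  have hV1c : V1.card ≤ Q := by
    refine Finset.card_le_card_of_injOn (fun p => p.1 + p.2) ?_ ?_
    · intro p hp
      rw [hV1, Finset.mem_coe, Finset.mem_filter, Finset.mem_product] at hp
      exact Finset.mem_coe.2 (Finset.add_mem_add hp.1.1 hp.1.2)
    · intro p hp q hq hpq
      rw [hV1, Finset.mem_coe, Finset.mem_filter, Finset.mem_product] at hp hq
      have e1 : p.1.re + p.2.re = q.1.re + q.2.re := by
        have := congrArg Complex.re hpq; simpa using this
      have e2 : p.1.im + p.2.im = q.1.im + q.2.im := by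
        have := congrArg Complex.im hpq; simpa using this
      obtain ⟨-, h1, h2⟩ := hp
      obtain ⟨-, h3, h4⟩ := hq
      rw [h1, h3] at e1
      rw [h2, h4] at e2
      exact Prod.ext (Complex.ext (by rw [h1, h3]) (by linarith)) (Complex.ext (by linarith) (by rw [h2, h4]))
  have hV2c : V2.card ≤ Q := by
    refine Finset.card_le_card_of_injOn (fun p => p.1 + p.2) ?_ ?_
    · intro p hp
      rw [hV2, Finset.mem_coe, Finset.mem_filter, Finset.mem_product] at hp
      exact Finset.mem_coe.2 (Finset.add_mem_add hp.1.1 hp.1.2)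
    · intro p hp q hq hpq
      rw [hV2, Finset.mem_coe, Finset.mem_filter, Finset.mem_product] at hp hq
      have e1 : p.1.re + p.2.re = q.1.re + q.2.re := by
        have := congrArg Complex.re hpq; simpa using this
      have e2 : p.1.im + p.2.im = q.1.im + q.2.im := by
        have := congrArg Complex.im hpq; simpa using this
      obtain ⟨-, h1, h2⟩ := hp
      obtain ⟨-, h3, h4⟩ := hq
      rw [h1, h3] at e1
      rw [h2, h4] at e2
      exact Prod.ext (Complex.ext (by linarith) (by rw [h2, h4])) (Complex.ext (by rw [h1, h3]) (by linarith))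
  have hsub : W ⊆ (((({0} : Finset ℂ) ×ˢ G) ∪ (G ×ˢ ({0} : Finset ℂ))) ∪ (V1 ∪ V2)) ∪
      ((R Gp Gp ∪ R Gp Gm) ∪ (R Gm Gp ∪ R Gm Gm)) := by
    rintro ⟨a, b⟩ hab
    rw [hW, Finset.mem_filter, Finset.mem_product] at hab
    obtain ⟨⟨ha, hb⟩, hp⟩ := hab
    simp only at ha hb hp
    have hp' := hp
    rw [re_conj] at hp'
    simp only [Finset.mem_union]
    by_cases ha0 : a = 0
    · left; left; left
      rw [Finset.mem_product]; exact ⟨by simp [ha0], hb⟩
    by_cases hb0 : b = 0
    · left; left; right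
      rw [Finset.mem_product]; exact ⟨ha, by simp [hb0]⟩
    by_cases har : a.re = 0
    · left; right; left
      have him : a.im ≠ 0 := fun h => ha0 (Complex.ext har h)
      rw [har, zero_mul, zero_add] at hp'
      rw [hV1, Finset.mem_filter, Finset.mem_product]
      exact ⟨⟨ha, hb⟩, har, (mul_eq_zero.1 hp').resolve_left him⟩
    by_cases hbr : b.re = 0
    · left; right; right
      have him : b.im ≠ 0 := fun h => hb0 (Complex.ext hbr h)
      rw [hbr, mul_zero, zero_add] at hp'
      rw [hV2, Finset.mem_filter, Finset.mem_product]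
      exact ⟨⟨ha, hb⟩, hbr, (mul_eq_zero.1 hp').resolve_right him⟩
    right
    rcases lt_or_gt_of_ne har with h1 | h1
    · right
      rcases lt_or_gt_of_ne hbr with h2 | h2
      · right
        simp only [hR, Finset.mem_filter, Finset.mem_product, hGm]
        exact ⟨⟨⟨ha, h1⟩, hb, h2⟩, hp⟩
      · left
        simp only [hR, Finset.mem_filter, Finset.mem_product, hGm, hGp]
        exact ⟨⟨⟨ha, h1⟩, hb, h2⟩, hp⟩
    · left
      rcases lt_or_gt_of_ne hbr with h2 | h2
      · right
        simp only [hR, Finset.mem_filter, Finset.mem_product, hGm, hGp]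
        exact ⟨⟨⟨ha, h1⟩, hb, h2⟩, hp⟩
      · left
        simp only [hR, Finset.mem_filter, Finset.mem_product, hGp]
        exact ⟨⟨⟨ha, h1⟩, hb, h2⟩, hp⟩
  have hcard : W.card ≤ ((G.card + G.card) + (V1.card + V2.card)) +
      (((R Gp Gp).card + (R Gp Gm).card) + ((R Gm Gp).card + (R Gm Gm).card)) := by
    refine (Finset.card_le_card hsub).trans ?_
    refine (Finset.card_union_le _ _).trans (Nat.add_le_add ?_ ?_)
    · refine (Finset.card_union_le _ _).trans (Nat.add_le_add ?_ (Finset.card_union_le _ _))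
      refine (Finset.card_union_le _ _).trans ?_
      rw [Finset.card_product, Finset.card_product, Finset.card_singleton]
      omega
    · exact (Finset.card_union_le _ _).trans (Nat.add_le_add (Finset.card_union_le _ _)
        (Finset.card_union_le _ _))
  have hcard' : (W.card : ℝ) ≤ 4 * Q + (((R Gp Gp).card + (R Gp Gm).card) +
      ((R Gm Gp).card + (R Gm Gm).card)) := by
    have h1 : W.card ≤ 4 * Q + (((R Gp Gp).card + (R Gp Gm).card) +
      ((R Gm Gp).card + (R Gm Gm).card)) := by omega
    exact_mod_cast h1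
  have hlog : 0 ≤ Real.log (Q : ℝ) := Real.log_nonneg (by exact_mod_cast hQ1)
  have hQ0 : (0 : ℝ) ≤ Q := by positivity
  have h4Q : (4 * Q : ℝ) ≤ 4 * Q * (1 + Real.log Q) := le_mul_of_one_le_right (by positivity) (by linarith)
  have d1 : ((R Gp Gp).card : ℝ) ≤ 24 * Q * (1 + Real.log Q) := c1
  have d2 : ((R Gp Gm).card : ℝ) ≤ 24 * Q * (1 + Real.log Q) := c2
  have d3 : ((R Gm Gp).card : ℝ) ≤ 24 * Q * (1 + Real.log Q) := c3
  have d4 : ((R Gm Gm).card : ℝ) ≤ 24 * Q * (1 + Real.log Q) := c4
  linarith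

end Pool.Agent.SDD
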