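import Pool.Agent.SDD.Enr
import Pool.Agent.SDD.Dist

/-!
# Pinned distances to sets of small doubling
-/

set_option autoImplicit false

open Finset ComplexConjugate
open scoped Pointwise

namespace Pool.Agent.SDD

theorem energy' (G : Finset ℂ) :
    (((G ×ˢ G).filter (fun p => (p.1 * conj p.2).re = 0)).card : ℝ) ≤
      200 * ((G + G).card : ℝ) * (1 + Real.log ((G + G).card : ℝ)) := by
  rcases G.eq_empty_or_nonempty with h | h
  · subst h; simp
  · have h1 := energy G h
    have h2 : 1 ≤ (G + G).card := Finset.card_pos.2 (h.add h)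
    have h3 : 0 ≤ Real.log ((G + G).card : ℝ) := Real.log_nonneg (by exact_mod_cast h2)
    have h4 : (0 : ℝ) ≤ ((G + G).card : ℝ) * (1 + Real.log ((G + G).card : ℝ)) := by positivity
    linarith

/-- Every point of the plane sees many distances to a set of small doubling. -/
theorem pinned : ∃ c : ℝ, 0 < c ∧ ∀ (P : Finset ℂ), 2 ≤ P.card → ∀ K : ℝ,
    (((P + P).card : ℝ) ≤ K * P.card ∨ ((P - P).card : ℝ) ≤ K * P.card) → ∀ x : ℂ,
      ∀ S ⊆ P, 2 ≤ S.card → c * (S.card : ℝ) ^ 2 / (K ^ 4 * P.card * Real.log P.card) ≤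
        (((S.erase x).image (fun y => dist x y)).card : ℝ) :=
  dist_of_energy energy'

end Pool.Agent.SDD
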