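import Mathlib
import Pool.Agent.GAPD.Abel

/-!
# Perpendicular pairs in a finite set of complex numbers, after Solymosi

For a finite set `G` of complex numbers the number of pairs `(a, b)` of elements of `G` with
`Re (a conj b) = 0` is at most `100 |G + G| (1 + log |G + G|)`.
-/

set_option autoImplicit false

open Finset ComplexConjugate
open scoped Pointwise

namespace Pool.Agent.SDD

/-- slope of a complex number -/
noncomputable def sl (a : ℂ) : ℝ := a.im / a.re

theorem im_eq (a : ℂ) (h : a.re ≠ 0) : a.im = sl a * a.re := by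
  unfold sl; field_simp

theorem mediant (a b : ℂ) (h : 0 < a.re * b.re) (hs : sl a < sl b) :
    sl a < sl (a + b) ∧ sl (a + b) < sl b := by
  have ha : a.re ≠ 0 := by rintro h0; rw [h0] at h; simp at h
  have hb : b.re ≠ 0 := by rintro h0; rw [h0] at h; simp at h
  have hab : a.re + b.re ≠ 0 := by
    intro h0
    have : a.re = - b.re := by linarith
    rw [this] at h
    nlinarith [sq_nonneg b.re]
  have h1 : sl (a + b) * (a.re + b.re) = sl a * a.re + sl b * b.re := by
    have e1 := im_eq a ha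
    have e2 := im_eq b hb
    unfold sl at *
    rw [Complex.add_im, Complex.add_re, div_mul_cancel₀ _ hab]
    linarith
  have h2 : 0 < a.re * (a.re + b.re) := by nlinarith [sq_nonneg a.re]
  have h3 : 0 < b.re * (a.re + b.re) := by nlinarith [sq_nonneg b.re]
  have h4 : 0 < (a.re + b.re) ^ 2 := by positivity
  constructor
  · have h5 : (sl (a + b) - sl a) * (a.re + b.re) ^ 2 = (sl b - sl a) * (b.re * (a.re + b.re)) := by
      linear_combination (a.re + b.re) * h1
    have h6 : 0 < (sl (a + b) - sl a) * (a.re + b.re) ^ 2 := by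
      rw [h5]; exact mul_pos (by linarith) h3
    have := (mul_pos_iff_of_pos_right h4).1 h6
    linarith
  · have h5 : (sl b - sl (a + b)) * (a.re + b.re) ^ 2 = (sl b - sl a) * (a.re * (a.re + b.re)) := by
      linear_combination (-(a.re + b.re)) * h1
    have h6 : 0 < (sl b - sl (a + b)) * (a.re + b.re) ^ 2 := by
      rw [h5]; exact mul_pos (by linarith) h2
    have := (mul_pos_iff_of_pos_right h4).1 h6
    linarith

theorem sum_inj (a b a' b' : ℂ) (σ τ : ℝ) (hστ : σ ≠ τ) (ha : a.im = σ * a.re)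
    (hb : b.im = τ * b.re) (ha' : a'.im = σ * a'.re) (hb' : b'.im = τ * b'.re)
    (h : a + b = a' + b') : a = a' ∧ b = b' := by
  have h1 : a.re + b.re = a'.re + b'.re := by
    have := congrArg Complex.re h
    simpa using this
  have h2 : a.im + b.im = a'.im + b'.im := by
    have := congrArg Complex.im h
    simpa using this
  rw [ha, hb, ha', hb'] at h2
  have h3 : (σ - τ) * (a.re - a'.re) = 0 := by linear_combination h2 - τ * h1
  have h4 : a.re - a'.re = 0 := by
    rcases mul_eq_zero.1 h3 with h | h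
    · exact absurd (sub_eq_zero.1 h) hστ
    · exact h
  have h5 : a.re = a'.re := by linarith
  have h6 : b.re = b'.re := by linarith
  exact ⟨Complex.ext h5 (by rw [ha, ha', h5]), Complex.ext h6 (by rw [hb, hb', h6])⟩

/-- number of elements of given slope -/
noncomputable def gg (A : Finset ℂ) (σ : ℝ) : ℕ := (A.filter (fun a => sl a = σ)).card

/-- Solymosi: consecutive slopes. -/
theorem levels (A : Finset ℂ) (hA : ∀ a ∈ A, ∀ b ∈ A, 0 < a.re * b.re) (k : ℕ) (T : Finset ℝ) :
    (∀ σ ∈ T, k ≤ gg A σ) → ∀ u ∈ T, (∀ σ ∈ T, σ ≤ u) →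
      (T.card - 1) * k ^ 2 ≤ ((A + A).filter (fun s => sl s < u)).card := by
  classical
  have hre : ∀ a ∈ A, a.re ≠ 0 := by
    intro a ha h0
    have := hA a ha a ha
    rw [h0] at this; simp at this
  induction T using Finset.induction_on_max with
  | empty => intro _ u hu; simp at hu
  | insert θ T' hθ ih =>
    intro hk u hu hmax
    have huθ : u = θ := by
      apply le_antisymm
      · rcases Finset.mem_insert.1 hu with h | h
        · exact le_of_eq h
        · exact (hθ u h).le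
      · exact hmax θ (Finset.mem_insert_self _ _)
    subst huθ
    have hθ' : u ∉ T' := fun h => lt_irrefl _ (hθ u h)
    rw [Finset.card_insert_of_notMem hθ']
    rcases T'.eq_empty_or_nonempty with hT | hT
    · rw [hT]; simp
    set u' := T'.max' hT with hu'
    have hu'm : u' ∈ T' := Finset.max'_mem _ _
    have h1 := ih (fun σ hσ => hk σ (Finset.mem_insert_of_mem hσ)) u' hu'm
      (fun σ hσ => Finset.le_max' _ _ hσ)
    have hlt : u' < u := hθ u' hu'm
    set B := ((A.filter (fun a => sl a = u')) ×ˢ (A.filter (fun a => sl a = u))).image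
      (fun p => p.1 + p.2) with hB
    have hBc : k ^ 2 ≤ B.card := by
      rw [hB, Finset.card_image_of_injOn, Finset.card_product, sq]
      · exact Nat.mul_le_mul (hk u' (Finset.mem_insert_of_mem hu'm)) (hk u (Finset.mem_insert_self _ _))
      · intro p hp q hq hpq
        rw [Finset.mem_coe, Finset.mem_product, Finset.mem_filter, Finset.mem_filter] at hp hq
        obtain ⟨⟨p1, p2⟩, p3, p4⟩ := hp
        obtain ⟨⟨q1, q2⟩, q3, q4⟩ := hq
        have e1 := im_eq p.1 (hre _ p1)
        have e2 := im_eq p.2 (hre _ p3)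
        have e3 := im_eq q.1 (hre _ q1)
        have e4 := im_eq q.2 (hre _ q3)
        rw [p2] at e1
        rw [p4] at e2
        rw [q2] at e3
        rw [q4] at e4
        obtain ⟨h5, h6⟩ := sum_inj _ _ _ _ u' u hlt.ne e1 e2 e3 e4 hpq
        exact Prod.ext h5 h6
    have hBm : ∀ s ∈ B, s ∈ A + A ∧ u' < sl s ∧ sl s < u := by
      intro s hs
      rw [hB, Finset.mem_image] at hs
      obtain ⟨p, hp, rfl⟩ := hs
      rw [Finset.mem_product, Finset.mem_filter, Finset.mem_filter] at hp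
      obtain ⟨⟨p1, p2⟩, p3, p4⟩ := hp
      have := mediant p.1 p.2 (hA _ p1 _ p3) (by rw [p2, p4]; exact hlt)
      rw [p2, p4] at this
      exact ⟨Finset.add_mem_add p1 p3, this⟩
    have hdis : Disjoint ((A + A).filter (fun s => sl s < u')) B := by
      rw [Finset.disjoint_left]
      intro s hs hs'
      rw [Finset.mem_filter] at hs
      have := (hBm s hs').2.1
      exact absurd hs.2 (not_lt.2 this.le)
    have hsub : ((A + A).filter (fun s => sl s < u')) ∪ B ⊆ (A + A).filter (fun s => sl s < u) := by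
      intro s hs
      rw [Finset.mem_union] at hs
      rw [Finset.mem_filter]
      rcases hs with h | h
      · rw [Finset.mem_filter] at h
        exact ⟨h.1, h.2.trans hlt⟩
      · exact ⟨(hBm s h).1, (hBm s h).2.2⟩
    have h2 := Finset.card_le_card hsub
    rw [Finset.card_union_of_disjoint hdis] at h2
    have h3 : T'.card + 1 - 1 = (T'.card - 1) + 1 := by
      have := Finset.card_pos.2 hT
      omega
    rw [h3, add_mul, one_mul]
    omega

/-- the slopes of high multiplicity -/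
noncomputable def Tk (A : Finset ℂ) (k : ℕ) : Finset ℝ := (A.image sl).filter (fun σ => k ≤ gg A σ)

theorem card_Tk (A : Finset ℂ) (hA : ∀ a ∈ A, ∀ b ∈ A, 0 < a.re * b.re) (k : ℕ) (Q : ℕ)
    (hQ : (A + A).card ≤ Q) : ((Tk A k).card : ℝ) * (k : ℝ) ^ 2 ≤ (k : ℝ) ^ 2 + Q := by
  rcases (Tk A k).eq_empty_or_nonempty with h | h
  · rw [h]; simp; positivity
  · have h1 := levels A hA k (Tk A k) (fun σ hσ => (Finset.mem_filter.1 hσ).2) ((Tk A k).max' h)
      (Finset.max'_mem _ _) (fun σ hσ => Finset.le_max' _ _ hσ)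
    have h2 : ((Tk A k).card - 1) * k ^ 2 ≤ Q :=
      h1.trans ((Finset.card_filter_le _ _).trans hQ)
    have h3 : (Tk A k).card * k ^ 2 ≤ k ^ 2 + Q := by
      have h4 : (Tk A k).card = ((Tk A k).card - 1) + 1 := by
        have := Finset.card_pos.2 h
        omega
      rw [h4, add_mul, one_mul]
      omega
    exact_mod_cast h3

theorem min_le_sum (g Q : ℕ) : min ((g : ℝ) ^ 2) Q ≤
    3 * ∑ k ∈ Finset.Icc 1 (Nat.sqrt Q), (if k ≤ g then 2 * (k : ℝ) else 0) := by
  set M := Nat.sqrt Q with hM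
  set m := min g M with hm
  have h1 : min ((g : ℝ) ^ 2) Q ≤ 3 * (m : ℝ) ^ 2 := by
    rcases le_total g M with h | h
    · have hmg : m = g := min_eq_left h
      rw [hmg]
      have : (0 : ℝ) ≤ (g : ℝ) ^ 2 := by positivity
      exact (min_le_left _ _).trans (by linarith)
    · have hmM : m = M := min_eq_right h
      rw [hmM]
      refine (min_le_right _ _).trans ?_
      have h2 : Q ≤ M * M + M + M := Nat.sqrt_le_add Q
      have h3 : Q ≤ 3 * M ^ 2 := by
        have : M ≤ M * M := by nlinarith [Nat.zero_le M, Nat.le_mul_self M]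
        nlinarith
      exact_mod_cast h3
  have h4 : (m : ℝ) ^ 2 ≤ ∑ k ∈ Finset.Icc 1 m, 2 * (k : ℝ) := by
    have h5 : ∀ n : ℕ, (n : ℝ) ^ 2 ≤ ∑ k ∈ Finset.Icc 1 n, 2 * (k : ℝ) := by
      intro n
      induction n with
      | zero => simp
      | succ n ih =>
        rw [Finset.sum_Icc_succ_top (by omega)]
        push_cast
        nlinarith
    exact h5 m
  have h6 : ∑ k ∈ Finset.Icc 1 m, 2 * (k : ℝ) ≤
      ∑ k ∈ Finset.Icc 1 M, (if k ≤ g then 2 * (k : ℝ) else 0) := by
    rw [← Finset.sum_filter]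
    apply Finset.sum_le_sum_of_subset_of_nonneg
    · intro k hk
      rw [Finset.mem_Icc] at hk
      rw [Finset.mem_filter, Finset.mem_Icc]
      omega
    · intro k _ _; positivity
  linarith

/-- the truncated second moment of the multiplicities of slopes -/
theorem FF_le (A : Finset ℂ) (hA : ∀ a ∈ A, ∀ b ∈ A, 0 < a.re * b.re) (Q : ℕ) (hQ1 : 1 ≤ Q)
    (hQ : (A + A).card ≤ Q) :
    ∑ σ ∈ A.image sl, min ((gg A σ : ℝ) ^ 2) Q ≤ 12 * Q * (1 + Real.log Q) := by
  classical
  set M := Nat.sqrt Q with hM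
  have h1 : ∑ σ ∈ A.image sl, min ((gg A σ : ℝ) ^ 2) (Q : ℝ) ≤
      ∑ σ ∈ A.image sl, 3 * ∑ k ∈ Finset.Icc 1 M, (if k ≤ gg A σ then 2 * (k : ℝ) else 0) :=
    Finset.sum_le_sum fun σ _ => min_le_sum (gg A σ) Q
  refine h1.trans ?_
  rw [← Finset.mul_sum, Finset.sum_comm]
  have h2 : ∀ k ∈ Finset.Icc 1 M, ∑ σ ∈ A.image sl, (if k ≤ gg A σ then 2 * (k : ℝ) else 0) ≤
      4 * Q * (1 / (k : ℝ)) := by
    intro k hk
    rw [Finset.mem_Icc] at hk
    rw [← Finset.sum_filter, Finset.sum_const, nsmul_eq_mul]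
    have h3 := card_Tk A hA k Q hQ
    have hk' : (0 : ℝ) < k := by exact_mod_cast hk.1
    have h4 : (k : ℝ) ^ 2 ≤ Q := by
      have : k ^ 2 ≤ Q := by
        have e1 : k * k ≤ M * M := Nat.mul_le_mul hk.2 hk.2
        have e2 : M * M ≤ Q := Nat.sqrt_le Q
        rw [sq]; omega
      exact_mod_cast this
    have h5 : ((Tk A k).card : ℝ) * (k : ℝ) ^ 2 ≤ 2 * Q := by linarith
    show ((Tk A k).card : ℝ) * (2 * k) ≤ _
    rw [mul_one_div, le_div_iff₀ hk']
    nlinarith
  have h6 : ∑ k ∈ Finset.Icc 1 M, (4 * Q * (1 / (k : ℝ)) : ℝ) ≤ 4 * Q * (1 + Real.log Q) := by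
    rw [← Finset.mul_sum]
    have h7 : ∑ k ∈ Finset.Icc 1 M, (1 / (k : ℝ)) ≤ 1 + Real.log Q := by
      have h8 := harmonic_le_one_add_log M
      rw [harmonic_eq_sum_Icc] at h8
      push_cast at h8
      have h9 : ∑ k ∈ Finset.Icc 1 M, (1 / (k : ℝ)) = ∑ k ∈ Finset.Icc 1 M, (k : ℝ)⁻¹ :=
        Finset.sum_congr rfl fun k _ => by rw [one_div]
      rw [h9]
      refine h8.trans ?_
      rcases Nat.eq_zero_or_pos M with h0 | h0
      · rw [h0]; simp
        exact Real.log_nonneg (by exact_mod_cast hQ1)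
      · have : Real.log M ≤ Real.log Q := by
          apply Real.log_le_log (by exact_mod_cast h0)
          exact_mod_cast Nat.sqrt_le_self Q
        linarith
    gcongr
  have h10 := Finset.sum_le_sum h2
  linarith

/-- Perpendicular pairs between two sets of constant sign. -/
theorem cross (A A' : Finset ℂ) (hA : ∀ a ∈ A, ∀ b ∈ A, 0 < a.re * b.re)
    (hA' : ∀ a ∈ A', ∀ b ∈ A', 0 < a.re * b.re) (Q : ℕ) (hQ1 : 1 ≤ Q)
    (hQ : (A + A).card ≤ Q) (hQ' : (A' + A').card ≤ Q) (hQQ : (A + A').card ≤ Q) :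
    (((A ×ˢ A').filter (fun p => (p.1 * conj p.2).re = 0)).card : ℝ) ≤
      24 * Q * (1 + Real.log Q) := by
  classical
  have hre : ∀ a ∈ A, a.re ≠ 0 := by
    intro a ha h0
    have := hA a ha a ha
    rw [h0] at this; simp at this
  have hre' : ∀ a ∈ A', a.re ≠ 0 := by
    intro a ha h0
    have := hA' a ha a ha
    rw [h0] at this; simp at this
  set W := (A ×ˢ A').filter (fun p => (p.1 * conj p.2).re = 0) with hW
  have hWm : ∀ p ∈ W, p.1 ∈ A ∧ p.2 ∈ A' ∧ 1 + sl p.1 * sl p.2 = 0 := by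
    intro p hp
    rw [hW, Finset.mem_filter, Finset.mem_product] at hp
    obtain ⟨⟨h1, h2⟩, h3⟩ := hp
    refine ⟨h1, h2, ?_⟩
    have e1 := im_eq p.1 (hre _ h1)
    have e2 := im_eq p.2 (hre' _ h2)
    rw [Complex.mul_re, Complex.conj_re, Complex.conj_im, e1, e2] at h3
    have h4 : (1 + sl p.1 * sl p.2) * (p.1.re * p.2.re) = 0 := by linear_combination h3
    exact (mul_eq_zero.1 h4).resolve_right (mul_ne_zero (hre _ h1) (hre' _ h2))
  have h1 : W.card = ∑ σ ∈ (A.image sl).filter (fun σ => σ ≠ 0), (W.filter (fun p => sl p.1 = σ)).card := by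
    apply Finset.card_eq_sum_card_fiberwise
    intro p hp
    have h2 := hWm p hp
    rw [Finset.mem_coe, Finset.mem_filter]
    refine ⟨Finset.mem_image_of_mem _ h2.1, ?_⟩
    intro h0
    have h0' : sl p.1 = 0 := h0
    rw [h0'] at h2
    simp at h2
  have h2 : ∀ σ ∈ (A.image sl).filter (fun σ => σ ≠ 0), ((W.filter (fun p => sl p.1 = σ)).card : ℝ) ≤
      min ((gg A σ : ℝ) ^ 2) Q + min ((gg A' (-σ⁻¹) : ℝ) ^ 2) Q := by
    intro σ hσ
    rw [Finset.mem_filter] at hσ
    have hσ0 := hσ.2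
    have hsub : W.filter (fun p => sl p.1 = σ) ⊆
        (A.filter (fun a => sl a = σ)) ×ˢ (A'.filter (fun a => sl a = -σ⁻¹)) := by
      intro p hp
      rw [Finset.mem_filter] at hp
      obtain ⟨h3, h4, h5⟩ := hWm p hp.1
      rw [Finset.mem_product, Finset.mem_filter, Finset.mem_filter]
      refine ⟨⟨h3, hp.2⟩, h4, ?_⟩
      rw [hp.2] at h5
      have h6 : σ * sl p.2 = -1 := by linarith
      field_simp
      linarith
    have hc1 := Finset.card_le_card hsub
    rw [Finset.card_product] at hc1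
    have hc2 : (W.filter (fun p => sl p.1 = σ)).card ≤ Q := by
      refine le_trans ?_ hQQ
      refine Finset.card_le_card_of_injOn (fun p => p.1 + p.2) ?_ ?_
      · intro p hp
        rw [Finset.mem_coe, Finset.mem_filter] at hp
        obtain ⟨h3, h4, -⟩ := hWm p hp.1
        exact Finset.mem_coe.2 (Finset.add_mem_add h3 h4)
      · intro p hp q hq hpq
        have hp' := Finset.mem_product.1 (hsub (Finset.mem_coe.1 hp))
        have hq' := Finset.mem_product.1 (hsub (Finset.mem_coe.1 hq))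
        rw [Finset.mem_filter, Finset.mem_filter] at hp' hq'
        have e1 := im_eq p.1 (hre _ hp'.1.1)
        have e2 := im_eq p.2 (hre' _ hp'.2.1)
        have e3 := im_eq q.1 (hre _ hq'.1.1)
        have e4 := im_eq q.2 (hre' _ hq'.2.1)
        rw [hp'.1.2] at e1
        rw [hp'.2.2] at e2
        rw [hq'.1.2] at e3
        rw [hq'.2.2] at e4
        have hne : σ ≠ -σ⁻¹ := by
          intro h
          have h7 : σ * σ = -1 := by
            calc σ * σ = σ * (-σ⁻¹) := by rw [← h]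
              _ = -1 := by field_simp
          nlinarith [mul_self_nonneg σ]
        obtain ⟨h5, h6⟩ := sum_inj _ _ _ _ σ (-σ⁻¹) hne e1 e2 e3 e4 hpq
        exact Prod.ext h5 h6
    have hc3 : ((W.filter (fun p => sl p.1 = σ)).card : ℝ) ≤ (gg A σ : ℝ) * gg A' (-σ⁻¹) := by
      unfold gg; exact_mod_cast hc1
    have hc4 : ((W.filter (fun p => sl p.1 = σ)).card : ℝ) ≤ Q := by exact_mod_cast hc2
    have hg : (0 : ℝ) ≤ gg A σ := by positivity
    have hg' : (0 : ℝ) ≤ gg A' (-σ⁻¹) := by positivity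
    have hQ0 : (0 : ℝ) ≤ Q := by positivity
    rcases le_total (gg A σ : ℝ) (gg A' (-σ⁻¹)) with h | h
    · have h8 : ((W.filter (fun p => sl p.1 = σ)).card : ℝ) ≤ min ((gg A' (-σ⁻¹) : ℝ) ^ 2) Q := by
        apply le_min _ hc4
        nlinarith
      have h9 : (0 : ℝ) ≤ min ((gg A σ : ℝ) ^ 2) Q := le_min (by positivity) hQ0
      linarith
    · have h8 : ((W.filter (fun p => sl p.1 = σ)).card : ℝ) ≤ min ((gg A σ : ℝ) ^ 2) Q := by
        apply le_min _ hc4
        nlinarith
      have h9 : (0 : ℝ) ≤ min ((gg A' (-σ⁻¹) : ℝ) ^ 2) Q := le_min (by positivity) hQ0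
      linarith
  have h3 : (W.card : ℝ) ≤ ∑ σ ∈ (A.image sl).filter (fun σ => σ ≠ 0),
      (min ((gg A σ : ℝ) ^ 2) Q + min ((gg A' (-σ⁻¹) : ℝ) ^ 2) Q) := by
    rw [h1]; push_cast
    exact Finset.sum_le_sum h2
  rw [Finset.sum_add_distrib] at h3
  have h4 : ∑ σ ∈ (A.image sl).filter (fun σ => σ ≠ 0), min ((gg A σ : ℝ) ^ 2) (Q : ℝ) ≤
      12 * Q * (1 + Real.log Q) := by
    refine le_trans (Finset.sum_le_sum_of_subset_of_nonneg (Finset.filter_subset _ _) ?_)
      (FF_le A hA Q hQ1 hQ)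
    intro σ _ _
    exact le_min (by positivity) (by positivity)
  have h5 : ∑ σ ∈ (A.image sl).filter (fun σ => σ ≠ 0), min ((gg A' (-σ⁻¹) : ℝ) ^ 2) (Q : ℝ) ≤
      12 * Q * (1 + Real.log Q) := by
    have hinj : Set.InjOn (fun σ : ℝ => -σ⁻¹) ((A.image sl).filter (fun σ => σ ≠ 0) : Finset ℝ) := by
      intro σ _ τ _ h
      simp only [neg_inj, inv_inj] at h
      exact h
    rw [← Finset.sum_image (f := fun τ => min ((gg A' τ : ℝ) ^ 2) (Q : ℝ)) hinj]
    have h6 : ∑ τ ∈ ((A.image sl).filter (fun σ => σ ≠ 0)).image (fun σ : ℝ => -σ⁻¹),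
        min ((gg A' τ : ℝ) ^ 2) (Q : ℝ) ≤ ∑ τ ∈ A'.image sl, min ((gg A' τ : ℝ) ^ 2) (Q : ℝ) := by
      rw [← Finset.sum_filter_add_sum_filter_not
        (((A.image sl).filter (fun σ => σ ≠ 0)).image (fun σ : ℝ => -σ⁻¹)) (fun τ => τ ∈ A'.image sl)]
      have h7 : ∑ τ ∈ (((A.image sl).filter (fun σ => σ ≠ 0)).image (fun σ : ℝ => -σ⁻¹)).filter
          (fun τ => ¬ τ ∈ A'.image sl), min ((gg A' τ : ℝ) ^ 2) (Q : ℝ) = 0 := by
        apply Finset.sum_eq_zero
        intro τ hτ
        rw [Finset.mem_filter] at hτ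
        have h8 : gg A' τ = 0 := by
          unfold gg
          rw [Finset.card_eq_zero, Finset.filter_eq_empty_iff]
          intro a ha h9
          exact hτ.2 (Finset.mem_image.2 ⟨a, ha, h9⟩)
        rw [h8]; simp
      rw [h7, add_zero]
      apply Finset.sum_le_sum_of_subset_of_nonneg
      · intro τ hτ
        exact (Finset.mem_filter.1 hτ).2
      · intro τ _ _
        exact le_min (by positivity) (by positivity)
    exact h6.trans (FF_le A' hA' Q hQ1 hQ')
  linarith

end Pool.Agent.SDD
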